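import Mathlib
import Pool.Agent.Helper34.LF.St

set_option autoImplicit false

open Finset Pool.Agent.Helper34.LF

namespace Pool.Agent.Helper79.LF

theorem fn_eq (k c : Fin 4) (w w' : Fin 4 → ZMod 2) (hc : c ≠ k) (h1 : pr k w = pr k w')
    (h2 : off k w = off k w') (h3 : w k ≠ w c) (h3' : w' k ≠ w' c) : w = w' := by
  have e1 : w (k + 1) = w' (k + 1) := congrArg Prod.fst h1
  have e2 : w (k + 2) = w' (k + 2) := congrArg Prod.snd h1
  have e3 : w (k + 3) = w' (k + 3) := by
    unfold off at h2
    rw [e1, e2] at h2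
    exact add_left_cancel h2
  have hcases : ∀ j k : Fin 4, j = k ∨ j = k + 1 ∨ j = k + 2 ∨ j = k + 3 := by decide
  have e : ∀ j, j ≠ k → w j = w' j := by
    intro j hj
    rcases hcases j k with h | h | h | h
    · exact absurd h hj
    · rw [h]; exact e1
    · rw [h]; exact e2
    · rw [h]; exact e3
  have hz : ∀ x y z : ZMod 2, x ≠ z → y ≠ z → x = y := by decide
  have hk : w k = w' k := by
    apply hz _ _ (w c) h3
    rw [e c hc]
    exact h3'
  funext j
  by_cases hj : j = k
  · rw [hj]; exact hk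
  · exact e j hj

theorem Sp_swap {N : ℕ} {a a' : VA N} {b b' : VB N} (h : Sp a a' b b') : Sp a a' b' b := by
  obtain ⟨h1, h2, h3⟩ := h
  refine ⟨h1, ?_, ?_⟩
  · rw [add_comm]; exact h2
  · rw [add_comm b'.1, add_comm b'.2]; exact h3

theorem key {N : ℕ} (X : Finset (VA N)) (b y : VB N) (hby : b ≠ y) (hX : X.card = 3)
    (h : KP X (insert b {y})) :
    ∃ a a' c, a ≠ a' ∧ a ≠ c ∧ a' ≠ c ∧ X = {a, a', c} ∧ Sp a a' b y ∧
      (b.1 + y.1) a.1 ≠ (b.1 + y.1) c.1 := by
  rcases h with h | h | h
  · exfalso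
    have := h.1.1
    omega
  · exfalso
    have := h.1
    omega
  · obtain ⟨a, a', c, q, q', haa, hac, ha'c, hqq, hXe, hY, hSp, hne⟩ := h
    have hqm : q ∈ (insert b {y} : Finset (VB N)) := by rw [hY]; simp
    have hqm' : q' ∈ (insert b {y} : Finset (VB N)) := by rw [hY]; simp
    rw [Finset.mem_insert, Finset.mem_singleton] at hqm hqm'
    rcases hqm with rfl | rfl <;> rcases hqm' with h' | h'
    · exact absurd h'.symm hqq
    · subst h'
      exact ⟨a, a', c, haa, hac, ha'c, hXe, hSp, hne⟩
    · subst h'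
      refine ⟨a, a', c, haa, hac, ha'c, hXe, Sp_swap hSp, ?_⟩
      rw [add_comm]
      exact hne
    · exact absurd h'.symm hqq

theorem pUB : StUB := by
  intro N _ X Y hG b b' hb hb' hK hK'
  have hc : (insert b Y).card = Y.card + 1 := Finset.card_insert_of_notMem hb
  have hc' : (insert b' Y).card = Y.card + 1 := Finset.card_insert_of_notMem hb'
  have c3 : ∀ (b : VB N) , (∃ a a' c q q', a ≠ a' ∧ a ≠ c ∧ a' ≠ c ∧ q ≠ q' ∧ X = {a, a', c} ∧
      insert b Y = {q, q'} ∧ Sp a a' q q' ∧ (q.1 + q'.1) a.1 ≠ (q.1 + q'.1) c.1) →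
      X.card = 3 ∧ (insert b Y).card = 2 := by
    rintro b ⟨a, a', c, q, q', haa, hac, ha'c, hqq, hXe, hY, -, -⟩
    constructor
    · rw [hXe]; exact Finset.card_eq_three.2 ⟨a, a', c, haa, hac, ha'c, rfl⟩
    · rw [hY]; exact Finset.card_pair hqq
  rcases hG with ⟨hX, hY⟩ | ⟨hX, hY⟩ | ⟨hX, hY, -⟩
  · -- the case (3,1)
    obtain ⟨y, rfl⟩ := Finset.card_eq_one.1 hY
    rw [Finset.mem_singleton] at hb hb'
    obtain ⟨a, a', c, haa, hac, ha'c, hXe, ⟨s1, s2, s3⟩, hne⟩ := key X b y hb hX hK
    obtain ⟨q, q', d, hqq, hqd, hq'd, hXe', ⟨s1', s2', s3'⟩, hne'⟩ := key X b' y hb' hX hK'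
    have hca : c.1 ≠ a.1 := fun h => hne (by rw [h])
    have hdq : d.1 ≠ q.1 := fun h => hne' (by rw [h])
    have ma : a ∈ ({q, q', d} : Finset (VA N)) := by rw [← hXe', hXe]; simp
    have ma' : a' ∈ ({q, q', d} : Finset (VA N)) := by rw [← hXe', hXe]; simp
    have mc : c ∈ ({q, q', d} : Finset (VA N)) := by rw [← hXe', hXe]; simp
    simp only [Finset.mem_insert, Finset.mem_singleton] at ma ma' mc
    have hdc : c = d := by
      rcases mc with h | h | h
      · exfalso
        rcases ma with h1 | h1 | h1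
        · exact hac (h1.trans h.symm)
        · apply hca; rw [h, h1, s1']
        · rcases ma' with h2 | h2 | h2
          · exact ha'c (h2.trans h.symm)
          · apply hca; rw [s1, h, h2, s1']
          · exact haa (h1.trans h2.symm)
      · exfalso
        rcases ma with h1 | h1 | h1
        · apply hca; rw [h, h1, s1']
        · exact hac (h1.trans h.symm)
        · rcases ma' with h2 | h2 | h2
          · apply hca; rw [s1, h, h2, s1']
          · exact ha'c (h2.trans h.symm)
          · exact haa (h1.trans h2.symm)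
      · exact h
    subst hdc
    have hk : q.1 = a.1 ∧ q.2 + q'.2 = a.2 + a'.2 := by
      rcases ma with h1 | h1 | h1
      · rcases ma' with h2 | h2 | h2
        · exact absurd (h1.trans h2.symm) haa
        · rw [h1, h2]; exact ⟨rfl, rfl⟩
        · exact absurd h2 ha'c
      · rcases ma' with h2 | h2 | h2
        · rw [h1, h2]; exact ⟨s1', add_comm _ _⟩
        · exact absurd (h1.trans h2.symm) haa
        · exact absurd h2 ha'c
      · exact absurd h1 hac
    obtain ⟨hk1, hk2⟩ := hk
    rw [hk1] at s2' s3' hne'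
    rw [hk2, s3] at s3'
    have hp : pr a.1 (b.1 + y.1) = pr a.1 (b'.1 + y.1) := congrArg Prod.fst s3'
    have hn : -(b.2 + y.2) = -(b'.2 + y.2) := congrArg Prod.snd s3'
    have hw : b.1 + y.1 = b'.1 + y.1 :=
      fn_eq a.1 c.1 _ _ hca hp (s2.trans s2'.symm) hne hne'
    have h1 : b.1 = b'.1 := add_right_cancel hw
    have h2 : b.2 = b'.2 := add_right_cancel (neg_injective hn)
    exact Prod.ext h1 h2
  · -- the case (1,3)
    have hs : ∀ b : VB N, b ∉ Y → KP X (insert b Y) → b = -∑ y ∈ Y, y := by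
      intro b hb hK
      rcases hK with h | h | h
      · exfalso
        have := h.1.1
        omega
      · have := h.2.2
        rw [Finset.sum_insert hb] at this
        exact eq_neg_of_add_eq_zero_left this
      · exfalso
        have := (c3 b h).1
        omega
    rw [hs b hb hK, hs b' hb' hK']
  · exfalso
    rcases hK with h | h | h
    · have := h.1.1
      omega
    · have := h.1
      omega
    · have := (c3 b h).1
      omega

end Pool.Agent.Helper79.LF
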